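import Mathlib

set_option autoImplicit false

namespace Pool.Agent.Results.MP_811ee8_lc.Quasi

open Finset

/-- Boolean formulas -/
inductive Fm (V : Type)
  | var (p : V) | top | bot | neg (a : Fm V) | and (a b : Fm V) | or (a b : Fm V)

/-- mental programs -/
inductive Pr (V : Type)
  | asg (p : V) (b : Bool) | test (a : Fm V) | union (a b : Pr V) | comp (a b : Pr V) | inter (a b : Pr V)

variable {V : Type}

def Fm.len : Fm V → ℕ
  | .var _ => 1 | .top => 1 | .bot => 1 | .neg a => a.len + 1
  | .and a b => a.len + b.len + 1 | .or a b => a.len + b.len + 1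

def Fm.sat (s : Finset V) : Fm V → Prop
  | .var p => p ∈ s | .top => True | .bot => False | .neg a => ¬ a.sat s
  | .and a b => a.sat s ∧ b.sat s | .or a b => a.sat s ∨ b.sat s

def Pr.len : Pr V → ℕ
  | .asg _ _ => 3 | .test a => a.len + 1
  | .union a b => a.len + b.len + 1 | .comp a b => a.len + b.len + 1 | .inter a b => a.len + b.len + 1

def Pr.rel [DecidableEq V] : Pr V → Finset V → Finset V → Prop
  | .asg p true, s, t => t = insert p s
  | .asg p false, s, t => t = s.erase p
  | .test a, s, t => t = s ∧ a.sat s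
  | .union a b, s, t => a.rel s t ∨ b.rel s t
  | .comp a b, s, t => ∃ u, a.rel s u ∧ b.rel u t
  | .inter a b, s, t => a.rel s t ∧ b.rel s t

/-- ordered binary decision diagrams over `V ∪ V'`: a node is a terminal or (variable, low child, high child) -/
structure BDD (V : Type) where
  size : ℕ
  lab : Fin size → Bool ⊕ ((V ⊕ V) × Fin size × Fin size)
  root : Fin size
  ord : V ⊕ V → ℕ
  ord_inj : Function.Injective ord
  ordered : ∀ u x l h, lab u = .inr (x, l, h) → ∀ v, v = l ∨ v = h → ∀ y l' h', lab v = .inr (y, l', h') →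
    ord x < ord y

/-- node `u` evaluates to true under the valuation `x` -/
inductive BDD.Acc (Ω : BDD V) (x : V ⊕ V → Prop) : Fin Ω.size → Prop
  | leaf (u) : Ω.lab u = .inl true → BDD.Acc Ω x u
  | high (u y l h) : Ω.lab u = .inr (y, l, h) → x y → BDD.Acc Ω x h → BDD.Acc Ω x u
  | low (u y l h) : Ω.lab u = .inr (y, l, h) → ¬ x y → BDD.Acc Ω x l → BDD.Acc Ω x u

def BDD.rel (Ω : BDD V) (s t : Finset V) : Prop := Ω.Acc (Sum.elim (· ∈ s) (· ∈ t)) Ω.root

/-- no two nodes with the same label, no node with equal children, every node reachable from the root -/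
def BDD.Reduced (Ω : BDD V) : Prop :=
  Function.Injective Ω.lab ∧ (∀ u x l h, Ω.lab u = .inr (x, l, h) → l ≠ h) ∧
    ∀ v, Relation.ReflTransGen (fun u w => ∃ x l h, Ω.lab u = .inr (x, l, h) ∧ (w = l ∨ w = h)) Ω.root v

section aux
variable [DecidableEq V]

def univP : List V → Pr V
  | [] => .test .top
  | p :: L => .comp (.union (.asg p true) (.asg p false)) (univP L)

omit [DecidableEq V] in
theorem univP_len (L : List V) : (univP L).len = 8 * L.length + 2 := by
  induction L with
  | nil => rfl
  | cons p L ih => simp [univP, Pr.len, ih]; ring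

theorem univP_rel (L : List V) : ∀ s t : Finset V, (∀ p, p ∉ L → (p ∈ s ↔ p ∈ t)) → (univP L).rel s t := by
  induction L with
  | nil => intro s t h; exact ⟨by ext p; simpa using (h p (by simp)).symm, trivial⟩
  | cons p L ih =>
    intro s t h
    by_cases hp : p ∈ t
    · refine ⟨insert p s, .inl rfl, ih _ _ fun q hq => ?_⟩
      by_cases e : q = p
      · simp [e, hp]
      · simp [e, h q (by simp [e, hq])]
    · refine ⟨s.erase p, .inr rfl, ih _ _ fun q hq => ?_⟩
      by_cases e : q = p
      · simp [e, hp]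
      · simp [e, h q (by simp [e, hq])]

def bigU {ι : Type} (f : ι → Pr V) : List ι → Pr V
  | [] => .test .bot
  | i :: L => .union (f i) (bigU f L)

theorem bigU_rel {ι : Type} (f : ι → Pr V) (L : List ι) (s t : Finset V) :
    (bigU f L).rel s t ↔ ∃ i ∈ L, (f i).rel s t := by
  induction L with
  | nil => simp [bigU, Pr.rel, Fm.sat]
  | cons i L ih => simp [bigU, Pr.rel, ih]

omit [DecidableEq V] in
theorem bigU_len {ι : Type} (f : ι → Pr V) (B : ℕ) (h : ∀ i, (f i).len ≤ B) (L : List ι) :
    (bigU f L).len ≤ L.length * (B + 1) + 2 := by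
  induction L with
  | nil => simp [bigU, Pr.len, Fm.len]
  | cons i L ih => have := h i; simp only [bigU, Pr.len, List.length_cons]; nlinarith

variable [Fintype V]

noncomputable def U : Pr V := univP (univ : Finset V).toList

theorem U_rel (s t : Finset V) : (U : Pr V).rel s t := univP_rel _ _ _ (by simp)

omit [DecidableEq V] in
theorem U_len : (U : Pr V).len = 8 * Fintype.card V + 2 := by simp [U, univP_len]

noncomputable def lit (y : V ⊕ V) (b : Bool) : Pr V :=
  match y with
  | .inl p => .comp (.test (if b then .var p else .neg (.var p))) U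
  | .inr p => .comp U (.test (if b then .var p else .neg (.var p)))

theorem lit_rel (y : V ⊕ V) (b : Bool) (s t : Finset V) :
    (lit y b).rel s t ↔ (Sum.elim (· ∈ s) (· ∈ t) y ↔ b = true) := by
  cases y <;> cases b <;> simp [lit, Pr.rel, U_rel, Fm.sat]

theorem lit_len (y : V ⊕ V) (b : Bool) : (lit y b).len ≤ 8 * Fintype.card V + 6 := by
  cases y <;> cases b <;> simp [lit, Pr.len, U_len, Fm.len] <;> omega

open Classical in
noncomputable def step (Ω : BDD V) (x : V ⊕ V → Prop) (u : Fin Ω.size) : Fin Ω.size :=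
  match Ω.lab u with
  | .inl _ => u
  | .inr (y, l, h) => if x y then h else l

noncomputable def R (Ω : BDD V) : ℕ → Fin Ω.size → Fin Ω.size → Pr V
  | 0, u, v => match Ω.lab u with
    | .inl _ => if u = v then U else .test .bot
    | .inr (y, l, h) => .union (if h = v then lit y true else .test .bot) (if l = v then lit y false else .test .bot)
  | k + 1, u, v => bigU (fun w => .inter (R Ω k u w) (R Ω k w v)) (List.finRange Ω.size)

theorem R_rel (Ω : BDD V) (s t : Finset V) (k : ℕ) : ∀ u v,
    (R Ω k u v).rel s t ↔ (step Ω (Sum.elim (· ∈ s) (· ∈ t)))^[2 ^ k] u = v := by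
  induction k with
  | zero =>
    intro u v
    simp only [R, step, pow_zero, Function.iterate_one]
    rcases Ω.lab u with b | ⟨y, l, h⟩
    · by_cases e : u = v <;> simp [e, U_rel, Pr.rel, Fm.sat]
    · by_cases e : h = v <;> by_cases e' : l = v <;> by_cases hx : Sum.elim (· ∈ s) (· ∈ t) y <;>
        simp [e, e', hx, Pr.rel, Fm.sat, lit_rel]
  | succ k ih =>
    intro u v
    simp [R, bigU_rel, Pr.rel, ih, pow_succ, mul_two, Function.iterate_add_apply]

theorem R_len (Ω : BDD V) (k : ℕ) : ∀ u v,
    (R Ω k u v).len + 1 ≤ 16 * (Fintype.card V + 1) * (4 * Ω.size) ^ k := by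
  induction k with
  | zero =>
    intro u v
    simp only [R]
    rcases Ω.lab u with b | ⟨y, l, h⟩
    · by_cases e : u = v <;> simp [e, U_len, Pr.len, Fm.len] <;> omega
    · have := lit_len y true
      have := lit_len y false
      by_cases e : h = v <;> by_cases e' : l = v <;> simp [e, e', Pr.len, Fm.len] <;> omega
  | succ k ih =>
    intro u v
    set B := 16 * (Fintype.card V + 1) * (4 * Ω.size) ^ k with hB
    have h1 := bigU_len (fun w => .inter (R Ω k u w) (R Ω k w v)) (2 * B - 1)
      (fun w => by have := ih u w; have := ih w v; simp only [Pr.len]; omega) (List.finRange Ω.size)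
    have h2 : 1 ≤ Ω.size := u.pos
    have h3 : 16 ≤ B := by
      have : 1 ≤ (4 * Ω.size) ^ k := Nat.one_le_pow _ _ (by omega)
      nlinarith
    simp only [List.length_finRange] at h1
    rw [show 2 * B - 1 + 1 = 2 * B by omega] at h1
    rw [pow_succ, ← mul_assoc, ← hB]
    simp only [R]
    nlinarith

omit [DecidableEq V] [Fintype V] in
theorem acc_iff (Ω : BDD V) (x : V ⊕ V → Prop) (u : Fin Ω.size) {M : ℕ} (hM : Ω.size ≤ M) :
    Ω.Acc x u ↔ Ω.lab ((step Ω x)^[M] u) = .inl true := by
  classical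
  have fix : ∀ w, Ω.lab w = .inl true → ∀ m, (step Ω x)^[m] w = w := fun w hw m =>
    Function.iterate_fixed (by simp [step, hw]) m
  constructor
  · intro h
    have ex : ∃ m, Ω.lab ((step Ω x)^[m] u) = .inl true := by
      induction h with
      | leaf u h => exact ⟨0, h⟩
      | high u y l h h1 h2 _ ih =>
        obtain ⟨m, hm⟩ := ih
        exact ⟨m + 1, by simpa [step, h1, h2] using hm⟩
      | low u y l h h1 h2 _ ih =>
        obtain ⟨m, hm⟩ := ih
        exact ⟨m + 1, by simpa [step, h1, h2] using hm⟩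
    have hm := Nat.find_spec ex
    set m := Nat.find ex with hmd
    have key : ∀ i j : Fin (m + 1), i < j → (step Ω x)^[i] u ≠ (step Ω x)^[j] u := fun i j hij e => by
      have h1 : (i : ℕ) < j := hij
      have h2 := j.2
      refine Nat.find_min ex (m := m - j + i) (by omega) ?_
      rw [Function.iterate_add_apply, e, ← Function.iterate_add_apply, show m - j + j = m by omega]
      exact hm
    have inj : Function.Injective fun i : Fin (m + 1) => (step Ω x)^[i] u := fun i j e => by
      rcases lt_trichotomy i j with h | h | h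
      exacts [absurd e (key i j h), h, absurd e.symm (key j i h)]
    have := Fintype.card_le_of_injective _ inj
    simp only [Fintype.card_fin] at this
    rw [show M = (M - m) + m by omega, Function.iterate_add_apply, fix _ hm]
    exact hm
  · clear hM
    induction M generalizing u with
    | zero => exact .leaf u
    | succ M ih =>
      intro h
      have h1 := ih _ h
      rcases e : Ω.lab u with b | ⟨y, l, k⟩
      · simpa [step, e] using h1
      · by_cases hx : x y
        · exact .high u y l k e hx (by simpa [step, e, hx] using h1)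
        · exact .low u y l k e hx (by simpa [step, e, hx] using h1)

noncomputable def tr (Ω : BDD V) : Pr V :=
  bigU (fun v => if Ω.lab v = .inl true then R Ω (Nat.clog 2 Ω.size) Ω.root v else .test .bot) (List.finRange Ω.size)

theorem tr_rel (Ω : BDD V) (s t : Finset V) : (tr Ω).rel s t ↔ Ω.rel s t := by
  rw [BDD.rel, acc_iff Ω _ _ (Nat.le_pow_clog one_lt_two _), tr, bigU_rel]
  constructor
  · rintro ⟨v, -, h⟩
    split_ifs at h with e
    · rw [(R_rel _ _ _ _ _ _).1 h]; exact e
    · exact h.2.elim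
  · intro h
    exact ⟨_, List.mem_finRange _, by rw [if_pos h, R_rel]⟩

theorem tr_len (Ω : BDD V) :
    (tr Ω).len ≤ 16 * (Fintype.card V + 1) * (4 * Ω.size) ^ (Nat.clog 2 Ω.size + 1) := by
  set B := 16 * (Fintype.card V + 1) * (4 * Ω.size) ^ Nat.clog 2 Ω.size with hB
  have h2 : 1 ≤ Ω.size := Ω.root.pos
  have h3 : 16 ≤ B := by
    have : 1 ≤ (4 * Ω.size) ^ Nat.clog 2 Ω.size := Nat.one_le_pow _ _ (by omega)
    nlinarith
  have h1 := bigU_len (fun v => if Ω.lab v = .inl true then R Ω (Nat.clog 2 Ω.size) Ω.root v else .test .bot) B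
    (fun v => by
      have := R_len Ω (Nat.clog 2 Ω.size) Ω.root v
      split_ifs
      · omega
      · simp [Pr.len, Fm.len]; omega) (List.finRange Ω.size)
  simp only [List.length_finRange] at h1
  rw [pow_succ, ← mul_assoc, ← hB, tr]
  nlinarith

omit [Fintype V] in
theorem lower (π : Pr V) : ∃ A : Finset V, A.card ≤ π.len ∧ ∀ s t, π.rel s t → ∀ p, p ∉ A → (p ∈ s ↔ p ∈ t) := by
  induction π with
  | asg q b =>
    refine ⟨{q}, by simp [Pr.len], fun s t h p hp => ?_⟩
    have : p ≠ q := by simpa using hp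
    cases b <;> simp only [Pr.rel] at h <;> simp [h, this]
  | test a => exact ⟨∅, by simp, fun s t h p _ => by rw [h.1]⟩
  | union a b ha hb =>
    obtain ⟨A, h1, h2⟩ := ha
    obtain ⟨B, h3, h4⟩ := hb
    refine ⟨A ∪ B, (card_union_le _ _).trans (by simp only [Pr.len]; omega), fun s t h p hp => ?_⟩
    rw [mem_union, not_or] at hp
    exact h.elim (fun h => h2 s t h p hp.1) fun h => h4 s t h p hp.2
  | comp a b ha hb =>
    obtain ⟨A, h1, h2⟩ := ha
    obtain ⟨B, h3, h4⟩ := hb
    refine ⟨A ∪ B, (card_union_le _ _).trans (by simp only [Pr.len]; omega), fun s t ⟨u, h, h'⟩ p hp => ?_⟩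
    rw [mem_union, not_or] at hp
    exact (h2 s u h p hp.1).trans (h4 u t h' p hp.2)
  | inter a b ha _ =>
    obtain ⟨A, h1, h2⟩ := ha
    exact ⟨A, by simp only [Pr.len]; omega, fun s t h => h2 s t h.1⟩

end aux

theorem asym (d : ℕ) {c δ : ℝ} (hc : 0 < c) (hδ : 0 < δ) : ∃ N₀ : ℕ, ∀ N n : ℕ, N₀ ≤ N → n ≤ N ^ d →
    ((16 * (n + 1) * (4 * N) ^ (Nat.clog 2 N + 1) : ℕ) : ℝ) < 2 ^ (c * (N : ℝ) ^ δ) := by
  have h := (isLittleO_log_rpow_rpow_atTop 2 hδ).bound (c := c * Real.log 2 / (d + 12))
    (by have := Real.log_pos (one_lt_two (α := ℝ)); positivity)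
  obtain ⟨a, ha⟩ := Filter.eventually_atTop.1 h
  refine ⟨max ⌈a⌉₊ 32, fun N n hN hn => ?_⟩
  have h32 : 32 ≤ N := (le_max_right _ _).trans hN
  have hN' : (32 : ℝ) ≤ N := by exact_mod_cast h32
  have h1 := ha N ((Nat.le_ceil a).trans (by exact_mod_cast (le_max_left _ _).trans hN))
  have l2 := Real.log_two_gt_d9
  have hl : 5 * Real.log 2 ≤ Real.log N := by
    have := Real.log_le_log (by norm_num) hN'
    rwa [show (32 : ℝ) = 2 ^ 5 by norm_num, Real.log_pow] at this
  rw [Real.norm_of_nonneg (by positivity), Real.norm_of_nonneg (by positivity)] at h1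
  have hk : ((Nat.clog 2 N : ℕ) : ℝ) ≤ 2 * Real.log N := by
    have h2 : 2 ^ (Nat.clog 2 N - 1) < N := Nat.pow_pred_clog_lt_self one_lt_two (by omega)
    have h3 : ((Nat.clog 2 N - 1 : ℕ) : ℝ) * Real.log 2 ≤ Real.log N := by
      rw [← Real.log_pow]
      exact Real.log_le_log (by positivity) (by exact_mod_cast h2.le)
    have h4 : ((Nat.clog 2 N : ℕ) : ℝ) ≤ ((Nat.clog 2 N - 1 : ℕ) : ℝ) + 1 := by
      exact_mod_cast (by omega : Nat.clog 2 N ≤ Nat.clog 2 N - 1 + 1)
    have h5 : (0 : ℝ) ≤ ((Nat.clog 2 N - 1 : ℕ) : ℝ) := by positivity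
    nlinarith
  have h6 : 16 * (n + 1) * (4 * N) ^ (Nat.clog 2 N + 1) ≤ N ^ (d + 1 + 2 * (Nat.clog 2 N + 1)) := by
    rw [pow_add N (d + 1), pow_mul, pow_succ N d]
    have : 1 ≤ N ^ d := Nat.one_le_pow _ _ (by omega)
    exact Nat.mul_le_mul (by nlinarith) (Nat.pow_le_pow_left (by nlinarith) _)
  calc _ ≤ ((N : ℝ)) ^ (d + 1 + 2 * (Nat.clog 2 N + 1)) := by exact_mod_cast h6
    _ = Real.exp ((d + 1 + 2 * (Nat.clog 2 N + 1) : ℕ) * Real.log N) := by
      rw [← Real.log_pow, Real.exp_log (by positivity)]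
    _ < _ := by
      rw [Real.rpow_def_of_pos two_pos, Real.exp_lt_exp]
      have h7 : (d + 12 : ℝ) * Real.log N ^ (2 : ℝ) ≤ Real.log 2 * (c * (N : ℝ) ^ δ) := by
        have : (d + 12 : ℝ) * (c * Real.log 2 / (d + 12) * (N : ℝ) ^ δ) = Real.log 2 * (c * (N : ℝ) ^ δ) := by
          field_simp
        rw [← this]
        exact mul_le_mul_of_nonneg_left h1 (by positivity)
      refine lt_of_lt_of_le ?_ h7
      rw [Real.rpow_two]
      push_cast
      have h8 : (1 : ℝ) ≤ Real.log N := by linarith
      have h9 : (0 : ℝ) ≤ d := by positivity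
      nlinarith [mul_le_mul_of_nonneg_left h8 h9, mul_le_mul_of_nonneg_right hk (by linarith : 0 ≤ Real.log N),
        mul_le_mul_of_nonneg_left h8 (mul_nonneg h9 (by linarith : 0 ≤ Real.log N))]

/-- the chain for the conjunction of the first `m` variables -/
def chain (m n : ℕ) : BDD (Fin (m + n)) where
  size := m + 2
  lab u := if h : (u : ℕ) < m then .inr (.inl ⟨u, by omega⟩, Fin.last _, ⟨u + 1, by omega⟩) else .inl (decide ((u : ℕ) = m))
  root := 0
  ord := Sum.elim (fun p => p) fun p => m + n + p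
  ord_inj := by
    rintro (a | a) (b | b) h <;> simp only [Sum.elim_inl, Sum.elim_inr] at h <;> have := a.2 <;> have := b.2 <;>
      first | omega | (congr 1; ext; omega)
  ordered := by
    intro u x l h h1 v hv y l' h' h2
    split_ifs at h1 h2 with a b
    · simp only [Sum.inr.injEq, Prod.mk.injEq] at h1 h2
      obtain ⟨rfl, rfl, rfl⟩ := h1
      obtain ⟨rfl, -, -⟩ := h2
      rcases hv with rfl | rfl
      · simp at b
      · simp

theorem result :
    (∃ τ : ∀ (V : Type) [Fintype V] [DecidableEq V], BDD V → Pr V,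
      (∀ (V : Type) [Fintype V] [DecidableEq V] (Ω : BDD V) (s t : Finset V), (τ V Ω).rel s t ↔ Ω.rel s t) ∧
      (∀ (V : Type) [Fintype V] [DecidableEq V] (Ω : BDD V),
        (τ V Ω).len ≤ 16 * (Fintype.card V + 1) * (4 * Ω.size) ^ (Nat.clog 2 Ω.size + 1)) ∧
      ∀ (d : ℕ) (c δ : ℝ), 0 < c → 0 < δ → ∃ N₀ : ℕ, ∀ (V : Type) [Fintype V] [DecidableEq V] (Ω : BDD V),
        N₀ ≤ Ω.size → Fintype.card V ≤ Ω.size ^ d → ((τ V Ω).len : ℝ) < 2 ^ (c * (Ω.size : ℝ) ^ δ)) ∧
    ∀ N : ℕ, 3 ≤ N → ∃ (n : ℕ) (Ω : BDD (Fin n)), Ω.size = N ∧ Ω.Reduced ∧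
      ∀ π : Pr (Fin n), (∀ s t, π.rel s t ↔ Ω.rel s t) → 2 ^ N ≤ π.len := by
  refine ⟨⟨fun V _ _ => tr, fun V _ _ => tr_rel, fun V _ _ => tr_len, fun d c δ hc hδ => ?_⟩, fun N hN => ?_⟩
  · obtain ⟨N₀, h⟩ := asym d hc hδ
    exact ⟨N₀, fun V _ _ Ω h1 h2 => lt_of_le_of_lt (by exact_mod_cast tr_len Ω) (h _ _ h1 h2)⟩
  · obtain ⟨m, rfl⟩ : ∃ m, N = m + 2 := ⟨N - 2, by omega⟩
    refine ⟨m + 2 ^ (m + 2), chain m _, rfl, ⟨?_, ?_, ?_⟩, fun π h => ?_⟩
    · intro u v h
      have := u.2
      have := v.2
      simp only [chain] at *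
      split_ifs at h with a b
      · simp only [Sum.inr.injEq, Prod.mk.injEq, Sum.inl.injEq, Fin.mk.injEq] at h
        exact Fin.ext h.1
      · simp only [Sum.inl.injEq, decide_eq_decide] at h
        ext; omega
    · intro u x l h h1
      simp only [chain] at h1
      split_ifs at h1 with a
      simp only [Sum.inr.injEq, Prod.mk.injEq] at h1
      obtain ⟨-, rfl, rfl⟩ := h1
      intro e
      have := congrArg Fin.val e
      simp only [Fin.val_last] at this
      omega
    · have key : ∀ i (hi : i ≤ m), Relation.ReflTransGen (fun u w => ∃ x l h,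
          (chain m (2 ^ (m + 2))).lab u = .inr (x, l, h) ∧ (w = l ∨ w = h)) (chain m (2 ^ (m + 2))).root
          (⟨i, by simp [chain]; omega⟩ : Fin (chain m (2 ^ (m + 2))).size) := by
        intro i
        induction i with
        | zero => exact fun _ => .refl
        | succ i ih => exact fun hi => (ih (by omega)).tail ⟨_, _, _, dif_pos (show i < m by omega), .inr rfl⟩
      intro v
      have hv : (v : ℕ) < m + 2 := v.2
      by_cases e : (v : ℕ) ≤ m
      · exact key v e
      · exact .single ⟨_, _, _, dif_pos (show 0 < m by omega), .inl (Fin.ext (show (v : ℕ) = m + 1 by omega))⟩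
    · obtain ⟨A, h1, h2⟩ := lower π
      have h3 : (chain m (2 ^ (m + 2))).rel univ ∅ := by
        have key : ∀ j i (hi : i + j = m), (chain m (2 ^ (m + 2))).Acc
            (Sum.elim (· ∈ (univ : Finset _)) (· ∈ (∅ : Finset _))) ⟨i, by simp [chain]; omega⟩ := by
          intro j
          induction j with
          | zero => exact fun i hi => .leaf _ (by simp [chain, show i = m by omega])
          | succ j ih =>
            exact fun i hi => .high _ _ _ _ (dif_pos (show i < m by omega)) (by simp) (ih (i + 1) (by omega))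
        exact key m 0 (by omega)
      have h4 : A = univ := eq_univ_of_forall fun p => by_contra fun hp => by
        simpa using h2 _ _ ((h _ _).2 h3) p hp
      rw [h4, card_univ, Fintype.card_fin] at h1
      omega

end Pool.Agent.Results.MP_811ee8_lc.Quasi
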